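import Mathlib
import Pool.Agent.P.MP_758450_pr.Defs
import Pool.Agent.P.MP_758450_pr.EXE

set_option autoImplicit false

open MeasureTheory ProbabilityTheory Filter Topology

namespace Pool.Agent.Results.MP_758450_pr.ExplicitTest

open Pool.Agent.P.MP_758450_pr (trials U theta IsERW)

/-- An explicit necessary and sufficient condition for right transience. -/
theorem result :
  ∀ (p : ℕ → unitInterval), (∃ ε : ℝ, 0 < ε ∧ ∀ i, ε ≤ (p i : ℝ) ∧ (p i : ℝ) ≤ 1 - ε) →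
    (∃ β : ℝ, β < 1 / 2 ∧ Asymptotics.IsBigO atTop
      (fun n : ℕ => ∑ i ∈ Finset.range n, (2 * (p i : ℝ) - 1)) (fun n : ℕ => (n : ℝ) ^ β)) →
    (∃ Θ : ℝ, ∀ x, |theta p 1 x| ≤ Θ) →
    ∀ (Ω : Type) [MeasurableSpace Ω] (P : Measure Ω), IsProbabilityMeasure P →
    ∀ X : ℕ → Ω → ℤ, IsERW p P X →
      (Summable (fun m : ℕ => Real.exp (-∑ n ∈ Finset.range m,
          (∑ i ∈ Finset.range (n + 1), (2 * (p i : ℝ) - 1)) * (1 - (p n : ℝ)) /
            (2 * ∑ i ∈ Finset.range (n + 1), (p i : ℝ) * (1 - (p i : ℝ))))) →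
        ∀ᵐ ω ∂P, Tendsto (fun n => X n ω) atTop atTop) ∧
      (¬ Summable (fun m : ℕ => Real.exp (-∑ n ∈ Finset.range m,
          (∑ i ∈ Finset.range (n + 1), (2 * (p i : ℝ) - 1)) * (1 - (p n : ℝ)) /
            (2 * ∑ i ∈ Finset.range (n + 1), (p i : ℝ) * (1 - (p i : ℝ))))) →
        P {ω | Tendsto (fun n => X n ω) atTop atTop} = 0) :=
  Pool.Agent.P.MP_758450_pr.EX.final_test

end Pool.Agent.Results.MP_758450_pr.ExplicitTest
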