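import Mathlib
import Pool.Agent.P.MP_758450_pr.Defs
import Pool.Agent.P.MP_758450_pr.ITC

set_option autoImplicit false

open MeasureTheory ProbabilityTheory Filter Topology

namespace Pool.Agent.Results.MP_758450_pr.IntegralTest

open Pool.Agent.P.MP_758450_pr (trials U theta IsERW)

/-- The integral test for right transience in a uniformly elliptic environment with `μ = 1`. -/
theorem result :
  ∀ (p : ℕ → unitInterval), (∃ ε : ℝ, 0 < ε ∧ ∀ i, ε ≤ (p i : ℝ) ∧ (p i : ℝ) ≤ 1 - ε) →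
    Tendsto (fun x : ℕ => (∫ B, (U x B : ℝ) ∂trials p) / x) atTop (𝓝 1) →
    ∀ κ : ℕ → ℝ, Summable (fun n => |κ (n + 1) - κ n|) →
    ∀ (Ω : Type) [MeasurableSpace Ω] (P : Measure Ω), IsProbabilityMeasure P →
    ∀ X : ℕ → Ω → ℤ, IsERW p P X →
      ((∀ᶠ x in atTop, κ x ≤ theta p 1 x) →
        Summable (fun m : ℕ => Real.exp (-∑ n ∈ Finset.range m, κ (n + 1) / ((n : ℝ) + 1))) →
        ∀ᵐ ω ∂P, Tendsto (fun n => X n ω) atTop atTop) ∧
      ((∀ᶠ x in atTop, theta p 1 x ≤ κ x) →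
        ¬ Summable (fun m : ℕ => Real.exp (-∑ n ∈ Finset.range m, κ (n + 1) / ((n : ℝ) + 1))) →
        P {ω | Tendsto (fun n => X n ω) atTop atTop} = 0) :=
  Pool.Agent.P.MP_758450_pr.IT.final_test

end Pool.Agent.Results.MP_758450_pr.IntegralTest
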